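import Pool.Agent.Y871.TK.Top

set_option autoImplicit false

open Set Cardinal

/-!
# Non-p-points with `(U, ⊇*) <_T (U, ⊇)` from `𝔡 = 𝔠` or from `𝔲 < 𝔡`

Everything that the statement uses is defined in this file.
-/

namespace Pool.Agent.Results.MP_8fdcc7_lc.DominatingUltrafilterNumber

/-- Tukey reducibility `(P, r) ≤_T (Q, s)`, where `r a b` means that `b` is above `a`: some map
`f : P → Q` sends every unbounded subset of `P` to an unbounded subset of `Q`. -/
def Tukey {P Q : Type} (r : P → P → Prop) (s : Q → Q → Prop) : Prop :=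
  ∃ f : P → Q, ∀ A : Set P, (¬ ∃ b, ∀ a ∈ A, r a b) → ¬ ∃ c, ∀ a ∈ A, s (f a) c

/-- The order `(U, ⊇)`: `B` is above `A` when `A ⊇ B`. -/
def Incl (U : Ultrafilter ℕ) (A B : {A : Set ℕ // A ∈ U}) : Prop := B.1 ⊆ A.1

/-- The order `(U, ⊇*)`: `B` is above `A` when `B \ A` is finite. -/
def Alm (U : Ultrafilter ℕ) (A B : {A : Set ℕ // A ∈ U}) : Prop := (B.1 \ A.1).Finite

/-- Nonprincipal ultrafilters on `ℕ`. -/
def Nonprincipal (U : Ultrafilter ℕ) : Prop := ∀ n : ℕ, ({n} : Set ℕ) ∉ U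

/-- `U` is a p-point: every countable subfamily of `U` has a pseudo-intersection in `U`. -/
def PPoint (U : Ultrafilter ℕ) : Prop :=
  ∀ S : Set (Set ℕ), S.Countable → (∀ A ∈ S, A ∈ U) → ∃ B ∈ U, ∀ A ∈ S, (B \ A).Finite

/-- The Fubini product `V · W`, as an ultrafilter on `ℕ` through the pairing function: `A` is in
it when for `V`-many `i` the column `{j | ⟨i, j⟩ ∈ A}` is in `W`. -/
def fubini (V W : Ultrafilter ℕ) : Ultrafilter ℕ := V.bind fun i => W.map (Nat.pair i)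

/-- The dominating number `𝔡`: the least size of a family of functions such that every function is
eventually below one of its members. -/
noncomputable def d : Cardinal.{0} :=
  sInf {κ | ∃ S : Set (ℕ → ℕ), (∀ f : ℕ → ℕ, ∃ g ∈ S, ∀ᶠ n in Filter.atTop, f n ≤ g n) ∧ #S = κ}

/-- The ultrafilter number `𝔲`: the least size of a base of a nonprincipal ultrafilter on `ℕ`. -/
noncomputable def u : Cardinal.{0} :=
  sInf {κ | ∃ U : Ultrafilter ℕ, Nonprincipal U ∧ ∃ S : Set (Set ℕ),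
    ((∀ A ∈ S, A ∈ U) ∧ ∀ A ∈ U, ∃ B ∈ S, B ⊆ A) ∧ #S = κ}

/-- If `𝔡 = 𝔠` or `𝔲 < 𝔡`, there are nonprincipal p-points `V` and `W` whose Fubini product
`U = V · W` is a nonprincipal ultrafilter that is not a p-point and satisfies
`(U, ⊇*) <_T (U, ⊇)`. -/
theorem result (h : d = Cardinal.continuum ∨ u < d) :
    ∃ V W : Ultrafilter ℕ, Nonprincipal V ∧ PPoint V ∧ Nonprincipal W ∧ PPoint W ∧
      Nonprincipal (fubini V W) ∧ ¬ PPoint (fubini V W) ∧
      Tukey (Alm (fubini V W)) (Incl (fubini V W)) ∧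
      ¬ Tukey (Incl (fubini V W)) (Alm (fubini V W)) := by
  obtain ⟨V, W, hV, hVp, hW, hWp, hT⟩ := Pool.Agent.Y871.TK.top h
  exact ⟨V, W, hV, hVp, hW, hWp, Pool.Agent.H341Q.TU.fub_nonPrin hW,
    Pool.Agent.H341Q.TU.fub_not_isPPt hV hW, Pool.Agent.H341Q.TU.almOrd_le_inclOrd _, hT⟩

end Pool.Agent.Results.MP_8fdcc7_lc.DominatingUltrafilterNumber
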