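import Pool.Agent.Y871.TK.Crit

set_option autoImplicit false

open Set

/-!
# When the two orders of a Fubini product are Tukey equivalent

Everything that the statement uses is defined in this file.
-/

namespace Pool.Agent.Results.MP_8fdcc7_lc.FubiniCriterion

/-- Tukey reducibility `(P, r) ≤_T (Q, s)`, where `r a b` means that `b` is above `a`: some map
`f : P → Q` sends every unbounded subset of `P` to an unbounded subset of `Q`. -/
def Tukey {P Q : Type} (r : P → P → Prop) (s : Q → Q → Prop) : Prop :=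
  ∃ f : P → Q, ∀ A : Set P, (¬ ∃ b, ∀ a ∈ A, r a b) → ¬ ∃ c, ∀ a ∈ A, s (f a) c

/-- The order `(U, ⊇)`: `B` is above `A` when `A ⊇ B`. -/
def Incl (U : Ultrafilter ℕ) (A B : {A : Set ℕ // A ∈ U}) : Prop := B.1 ⊆ A.1

/-- The order `(U, ⊇*)`: `B` is above `A` when `B \ A` is finite. -/
def Alm (U : Ultrafilter ℕ) (A B : {A : Set ℕ // A ∈ U}) : Prop := (B.1 \ A.1).Finite

/-- The functions `ℕ → ℕ` with everywhere dominance. -/
def Dom (f g : ℕ → ℕ) : Prop := ∀ n, f n ≤ g n

/-- Nonprincipal ultrafilters on `ℕ`. -/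
def Nonprincipal (U : Ultrafilter ℕ) : Prop := ∀ n : ℕ, ({n} : Set ℕ) ∉ U

/-- `U` is a p-point: every countable subfamily of `U` has a pseudo-intersection in `U`. -/
def PPoint (U : Ultrafilter ℕ) : Prop :=
  ∀ S : Set (Set ℕ), S.Countable → (∀ A ∈ S, A ∈ U) → ∃ B ∈ U, ∀ A ∈ S, (B \ A).Finite

/-- The Fubini product `V · W`, as an ultrafilter on `ℕ` through the pairing function: `A` is in
it when for `V`-many `i` the column `{j | ⟨i, j⟩ ∈ A}` is in `W`. -/
def fubini (V W : Ultrafilter ℕ) : Ultrafilter ℕ := V.bind fun i => W.map (Nat.pair i)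

/-- Let `V`, `W` be nonprincipal and `W` a p-point. Then `(V · W, ⊇) ≤_T (V · W, ⊇*)` if and only if
`(W, ⊇) ≤_T (V, ⊇)` and `(ω ^ ω, ≤) ≤_T (V, ⊇)`. -/
theorem result (V W : Ultrafilter ℕ) (hV : Nonprincipal V) (hW : Nonprincipal W) (hWp : PPoint W) :
    Tukey (Incl (fubini V W)) (Alm (fubini V W)) ↔
      Tukey (Incl W) (Incl V) ∧ Tukey Dom (Incl V) :=
  Pool.Agent.Y871.TK.crit hV hW hWp

end Pool.Agent.Results.MP_8fdcc7_lc.FubiniCriterion
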